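import Mathlib
import Pool.Agent.W628.Maps
import Pool.Agent.W628.Limit
import Pool.Agent.W628.Transfer
import Pool.Agent.W628.PLocal

/-!
# Maps into a telescope of p-local finite groups need not factor through a finite stage
-/

set_option backward.isDefEq.respectTransparency false
set_option backward.defeqAttrib.useBackward true

open CategoryTheory Limits Opposite Simplicial

namespace Pool.Agent.Results.MP_ce8751_gt.NoFactorization

open Pool.Agent.W628

/-- For every prime `p` there are finite `p`-groups `S 0 → S 1 → ⋯` (injective homomorphisms),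
with a map `g` from the colimit of the classifying spaces `BG (S m)` to the classifying space of
the cyclic group of order `p` that is an isomorphism on homology with coefficients in the field
with `p` elements, all the classifying spaces `BG (S m)` and the target of `g` being local with
respect to homology with these coefficients (so that `g` is the `p`-completion of the
colimit), such that the identity of the classifying space of the cyclic group of order
`p` does not factor, up to homotopy, through any of the maps `BG (S m) ⟶ colim ⟶ BG (ℤ/p)`. -/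
theorem result (p : ℕ) [Fact p.Prime] :
    ∃ (S : ℕ → Type) (_ : ∀ m, Group (S m)) (f : ∀ m, S m →* S (m + 1))
      (c : Cocone (Functor.ofSequence (X := fun m => BG (S m)) (fun m => BMap (f m))))
      (_ : IsColimit c) (g : c.pt ⟶ BG (Multiplicative (ZMod p))),
      (∀ m, Finite (S m)) ∧ (∀ m, IsPGroup p (S m)) ∧ (∀ m, Function.Injective (f m)) ∧
      (∀ m, PLocal p (BG (S m))) ∧ PLocal p (BG (Multiplicative (ZMod p))) ∧
      (∀ n, IsIso (SSet.homologyMap g (ModuleCat.of (ZMod p) (ZMod p)) n)) ∧
      (∀ (m : ℕ) (h : BG (Multiplicative (ZMod p)) ⟶ BG (S m)),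
        IsEmpty (SSet.Homotopy (h ≫ c.ι.app m ≫ g) (𝟙 (BG (Multiplicative (ZMod p)))))) := by
  obtain ⟨T, hT, ι, πT, hι, inj, surj, hπ⟩ := exists_direct_limit
    (S := fun m => (tw p m).S) (twf p) (fun m => (tw p m).π) (twf_injective p) (tw_comp p)
  refine ⟨fun m => (tw p m).S, inferInstance, twf p, BCocone (twf p) ι hι,
    BCocone_isColimit (twf p) ι hι inj surj, BMap πT, fun m => (tw p m).fin,
    fun m => (tw p m).pg, twf_injective p, fun m => ?_, ?_, fun n => ?_, fun m h => ⟨fun H => ?_⟩⟩
  · have := (tw p m).fin
    exact pLocal_BG p _ (tw p m).pg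
  · have h1 : IsPGroup p (Multiplicative (ZMod p)) := by
      refine IsPGroup.of_card (n := 1) ?_
      rw [Nat.card_congr Multiplicative.toAdd, Nat.card_zmod, pow_one]
    exact pLocal_BG p _ h1
  · rw [isIso_homologyMap_iff]
    exact tw_limit p (ZMod p) ι πT hι inj surj hπ n
  · have e : h ≫ (BCocone (twf p) ι hι).ι.app m ≫ BMap πT = h ≫ BMap (tw p m).π := by
      rw [← hπ m]
      rfl
    rw [e] at H
    exact no_factor (tw p m) h H

end Pool.Agent.Results.MP_ce8751_gt.NoFactorization
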